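import Mathlib
import Pool.Agent.H.MP_8dd142_lc.C
import Pool.Agent.Helper647.GR.ForceCH

set_option autoImplicit false

/-!
# Tukey non-maximality does not imply finitely generated Tukey reductions (a forcing argument)

Part (1): there is a forcing notion which preserves `ω₁` and forces the diamond principle
(`OmegaOnePreserved`, `DiamondHolds` of `Pool/Agent/Helper647/GR/ForceCH.lean`; a sentence of the
forcing language is the set of the conditions which force it). Part (2): the diamond principle, that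
is the sentence of part (1) evaluated in the universe, implies that some nonprincipal ultrafilter
on `ℕ` which is not of the maximum Tukey type does not have finitely generated Tukey reductions.
-/

namespace Pool.Agent.Results.MP_8dd142_lc.NotATheorem

open Cardinal Set
open Pool.Agent.Helper647.GR.ForceCH (Om OmegaOnePreserved DiamondHolds)

/-- `C` is a closed unbounded subset of `ω₁` (the sentence named by `IsClubName`). -/
def IsClubOm (C : Om → Prop) : Prop :=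
  (∀ a : Om, ∃ b : Om, a < b ∧ C b) ∧
    ∀ a : Om, (∃ b, b < a) → (∀ b : Om, b < a → ∃ c : Om, (b < c ∧ c < a) ∧ C c) → C a

/-- Jensen's diamond principle: the sentence which `DiamondHolds P` says is forced, evaluated in
the universe. -/
def Diamond : Prop :=
  ∃ A : Om → Om → Prop, ∀ S : Om → Prop, ∀ C : Om → Prop,
    IsClubOm C → ∃ a : Om, C a ∧ ∀ b : Om, b < a → (S b ↔ A a b)

/-- `U`, ordered by reverse inclusion, is Tukey above the finite subsets of a set of size continuum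
(here the set of all subsets of `ℕ`); so `U` has the maximum Tukey type. -/
def TukeyTop (U : Ultrafilter ℕ) : Prop :=
  ∃ g : Finset (Set ℕ) → Set ℕ, (∀ s, g s ∈ U) ∧
    ∀ A : Set (Finset (Set ℕ)), (∃ Y ∈ U, ∀ s ∈ A, Y ⊆ g s) →
      ∃ t : Finset (Set ℕ), ∀ s ∈ A, s ⊆ t

/-- `U` has finitely generated Tukey reductions: every monotone cofinal map `f` from `U` to an
ultrafilter `V` is, on some cofinal `C ⊆ U`, generated by a monotone map on finite sets. -/
def FinitelyGeneratedReductions (U : Ultrafilter ℕ) : Prop :=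
  ∀ V : Ultrafilter ℕ, ∀ f : Set ℕ → Set ℕ,
    (∀ X ∈ U, f X ∈ V) →
    (∀ X ∈ U, ∀ Y ∈ U, Y ⊆ X → f Y ⊆ f X) →
    (∀ B : Set (Set ℕ), (∀ Y ∈ B, Y ∈ U) → (∀ X ∈ U, ∃ Y ∈ B, Y ⊆ X) →
        ∀ Z ∈ V, ∃ Y ∈ B, f Y ⊆ Z) →
    ∃ C : Set (Set ℕ), (∀ Y ∈ C, Y ∈ U) ∧ (∀ X ∈ U, ∃ Y ∈ C, Y ⊆ X) ∧
      ∃ fh : Finset ℕ → Finset ℕ, (∀ s t : Finset ℕ, s ⊆ t → fh s ⊆ fh t) ∧
        ∀ X ∈ C, f X = {m : ℕ | ∃ k : ℕ, ∃ s : Finset ℕ,
          (s : Set ℕ) = X ∩ Set.Iio k ∧ m ∈ fh s}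

theorem diamond_stat (h : Diamond) : ∃ D : Om → Set Om, ∀ Y : Set Om,
    IsStationary {δ | Y ∩ Iio δ = D δ} := by
  obtain ⟨A, hA⟩ := h
  refine ⟨fun δ => {b | b < δ ∧ A δ b}, fun Y t ht => ?_⟩
  have hno : ∀ a : Om, ∃ b : Om, a < b := by
    intro a
    by_contra hcon
    push Not at hcon
    have : (Set.univ : Set Om) = Iic a := by
      ext b; simp [hcon b]
    have h1 : #(Iic a) = ℵ₁ := by
      rw [← this, mk_univ, mk_ord_toType]
    have h2 : (Iic a).Countable := by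
      rw [← Iio_insert]
      refine Countable.insert a ?_
      rw [← le_aleph0_iff_set_countable]
      exact Order.lt_succ_iff.1 (((mk_Iio_lt a (by simp)).trans_eq
        (mk_ord_toType _)).trans_eq succ_aleph0.symm)
    rw [← le_aleph0_iff_set_countable, h1] at h2
    exact absurd h2 (not_le.2 aleph0_lt_aleph_one)
  have hclub : IsClubOm (fun a => a ∈ t) := by
    constructor
    · intro a
      obtain ⟨b, hb⟩ := hno a
      obtain ⟨c, hc, hbc⟩ := ht.isCofinal b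
      exact ⟨c, lt_of_lt_of_le hb hbc, hc⟩
    · intro a ha h
      refine ht.isLUB_mem (t := {c | c ∈ t ∧ c < a}) (fun c hc => hc.1) ?_ ?_
      · obtain ⟨b, hb⟩ := ha
        obtain ⟨c, hc, hc'⟩ := h b hb
        exact ⟨c, hc', hc.2⟩
      · refine ⟨fun c hc => hc.2.le, fun b hb => ?_⟩
        by_contra hcon
        push Not at hcon
        obtain ⟨c, hc, hc'⟩ := h b hcon
        exact absurd (hb ⟨hc', hc.2⟩) (not_le.2 hc.1)
  obtain ⟨δ, hδ, h2⟩ := hA (fun b => b ∈ Y) _ hclub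
  refine ⟨δ, ?_, hδ⟩
  ext b
  constructor
  · rintro ⟨h3, h4⟩
    exact ⟨h4, (h2 b h4).1 h3⟩
  · rintro ⟨h3, h4⟩
    exact ⟨(h2 b h3).2 h4, h3⟩

theorem diamond_dia (h : Diamond) : Pool.Agent.H.MP_2e4b78_lc.Dia := by
  have key : ∀ o : Ordinal.{0}, o = (ℵ₁ : Cardinal.{0}).ord → ∃ D : o.ToType → Set o.ToType,
      ∀ Y : Set o.ToType, IsStationary {δ | Y ∩ Iio δ = D δ} := by
    rintro o rfl
    exact diamond_stat h
  exact key _ (by simp)

theorem part_two (h : Diamond) : ∃ U : Ultrafilter ℕ, (∀ n, {n} ∉ U) ∧ ¬ TukeyTop U ∧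
    ¬ FinitelyGeneratedReductions U := by
  classical
  obtain ⟨U, h1, -, h3, h4⟩ := Pool.Agent.H.MP_8dd142_lc.main (diamond_dia h)
  refine ⟨U, h1, ?_, ?_⟩
  · rintro ⟨g, hg, hg'⟩
    obtain ⟨i⟩ : Nonempty (ℝ ↪ Set ℕ) := (Cardinal.le_def ℝ (Set ℕ)).1 (by simp [mk_real])
    apply h3
    refine ⟨fun F => ⟨g (F.image i), hg _⟩, ?_⟩
    rintro S hS ⟨b, hb⟩
    apply hS
    obtain ⟨t, ht⟩ := hg' ((fun F => F.image i) '' S) ⟨b.1, b.2, by
      rintro _ ⟨F, hF, rfl⟩
      exact hb _ ⟨F, hF, rfl⟩⟩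
    refine ⟨t.preimage i i.injective.injOn, fun F hF => ?_⟩
    intro x hx
    rw [Finset.mem_preimage]
    exact ht _ ⟨F, hF, rfl⟩ (Finset.mem_image_of_mem _ hx)
  · intro hfg
    apply h4
    intro V f hf1 hf2 hf3
    obtain ⟨C, hC1, hC2, fh, hfh1, hfh2⟩ := hfg V f hf1 hf2 (fun B hB1 hB2 Z hZ => by
      obtain ⟨_, ⟨Y, hY, rfl⟩, hYZ⟩ := (hf3 B ⟨hB1, hB2⟩).2 Z hZ
      exact ⟨Y, hY, hYZ⟩)
    exact ⟨C, ⟨hC1, hC2⟩, fh, hfh1, hfh2⟩

/-- Q1 is not a theorem of ZFC: (1) the diamond principle can be forced, (2) the diamond principle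
refutes Q1, even with a nonprincipal ultrafilter. -/
theorem result :
    (∃ (P : Type) (_ : Preorder P), Nonempty P ∧ ∀ p : P,
      p ∈ OmegaOnePreserved P ∧ p ∈ DiamondHolds P) ∧
    (Diamond → ∃ U : Ultrafilter ℕ, (∀ n, {n} ∉ U) ∧ ¬ TukeyTop U ∧
      ¬ FinitelyGeneratedReductions U) := by
  refine ⟨?_, part_two⟩
  obtain ⟨P, hP, hne, h⟩ := Pool.Agent.Helper647.GR.ForceCH.exists_forcing
  exact ⟨P, hP, hne, fun p => ⟨(h p).1, (h p).2.1⟩⟩

end Pool.Agent.Results.MP_8dd142_lc.NotATheorem
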